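import Pool.Agent.X63.ArcIncl4

/-!
There are no inclusions between the classes of arc `k`-visibility graphs.
-/

set_option autoImplicit false

namespace Pool.Agent.Results.MP_73fdb2_co.NoInclusions

open Pool.Agent.X63.AL

/-- For all distinct `i`, `j` some arc `j`-visibility graph is not an arc `i`-visibility graph; it
does not even have an arc `i`-visibility representation in which one-point arcs and full circles
are allowed. -/
theorem result (i j : ℕ) (hij : i ≠ j) : ∃ (V : Type) (_ : Fintype V) (G : SimpleGraph V),
    InA j G ∧ ¬ InA i G ∧ ¬ ∃ r a b : V → ℝ, IsRep i G r a b := by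
  have h : ∃ (V : Type) (_ : Fintype V) (G : SimpleGraph V),
      InA j G ∧ ¬ ∃ r a b : V → ℝ, IsRep i G r a b := by
    rcases lt_or_gt_of_ne hij with h | h
    · exact high j i h
    · exact low j i h
  obtain ⟨V, hV, G, h1, h2⟩ := h
  refine ⟨V, hV, G, h1, ?_, h2⟩
  rintro ⟨r, a, b, _, h3⟩
  exact h2 ⟨r, a, b, h3⟩

end Pool.Agent.Results.MP_73fdb2_co.NoInclusions
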